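import Pool.Agent.Helper33.TG.Defs
import Pool.Agent.Helper42.T3.Main

/-!
Diagrams with one negative crossing ball which reduce to one edge: the fundamental group is not
left-orderable, as soon as the element of the negative edge does not move up.
-/

set_option autoImplicit false

namespace Pool.Agent.Helper33.TG

open Pool.Agent.Helper42.Th Pool.Agent.Helper31.T3 Pool.Agent.Helper42.T3

universe u

/-- The element of the negative edge does not move up. -/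
def Final {E : Type} {G : Type u} [Group G] (Γ : CMap E) (L : Lab G Γ) (δ : E) (s : Bool)
    (k₁ k₂ : ℕ) : Prop :=
  ∀ (Ω : Type u) [CompleteLinearOrder Ω] (ρ : G →* (Ω ≃o Ω)) (a b : Ω ≃o Ω),
    Sys Γ δ (lx L ρ) (ly L ρ) a b (k₁ + k₂ + 1) → Reduces L δ s k₁ k₂ →
    (s = true → ∀ z, z ≤ a z → a z = (b ^ (k₁ + k₂ + 1)) z → a z = z) →
    ∀ z, z ≤ a z → a z = z

lemma strict_of_fill {E : Type} {G : Type u} [Group G] {Γ : CMap E} {L : Lab G Γ} {δ : E}
    {F₀ : Set G} {k : ℕ} {s : Bool} (hneg : Fill s k (L.D δ) (L.M δ)⁻¹ F₀) {Ω : Type u}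
    [CompleteLinearOrder Ω] (ρ : G →* (Ω ≃o Ω)) (hs : s = true) (z : Ω)
    (he : ρ (L.D δ) z = (ρ (L.M δ)⁻¹ ^ k) z) : ρ (L.D δ) z = z := by
  have hc : Commute (L.M δ) (L.D δ) := comm_MD L δ
  have h1 := (spec_of_fill ρ hneg).str (by
    rw [← map_mul, ← map_mul]
    congr 1
    exact hc.symm.inv_right.eq) hs k rfl z (by
      rw [RelIso.mul_apply, he, ← RelIso.mul_apply, zpow_neg, zpow_natCast, inv_mul_cancel]
      rfl)
  rw [he]
  exact Pool.Agent.Helper71.Rot.pow_fix' k h1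

/-- The main theorem. -/
theorem main_of_final {E : Type} [Finite E] {G : Type u} [Group G] (Γ : CMap E) (L : Lab G Γ) (δ : E)
    (P : Set E) (F : E → Set G) (F₀ : Set G) (k₁ k₂ : ℕ) (s : Bool)
    (final : Final Γ L δ s k₁ k₂)
    (hP : ∀ d, d ≠ δ → d ≠ Γ.flip δ → d ∈ P ∨ Γ.flip d ∈ P)
    (hpos : ∀ d ∈ P, Fill true 0 (L.M d) (L.D d) (F d))
    (hneg : Fill s (k₁ + k₂ + 1) (L.D δ) (L.M δ)⁻¹ F₀) (h : Reduces L δ s k₁ k₂)
    (hgen : Subgroup.closure ((L.elts ∪ ⋃ d ∈ P, F d) ∪ F₀) = ⊤) :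
    ¬ (Nontrivial G ∧ ∃ _ : LinearOrder G, ∀ f g h : G, g ≤ h → f * g ≤ f * h) := by
  have hk : 0 < k₁ + k₂ + 1 := Nat.succ_pos _
  refine not_leftOrderable L δ P F F₀ (k₁ + k₂ + 1) s hP hpos hk hneg ?_ hgen
  intro Ω _ ρ z hz
  have S := sys L δ P F F₀ (k₁ + k₂ + 1) s ρ hP hpos hk hneg
  exact final Ω ρ _ _ S h (fun hs z _ he => strict_of_fill hneg ρ hs z he) z hz

end Pool.Agent.Helper33.TG
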