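import Mathlib
import Pool.Agent.Helper42.Th.Defs

/-!
Reductions of a diagram with one negative crossing ball.
-/

set_option autoImplicit false

namespace Pool.Agent.Helper33.TG

open Pool.Agent.Helper42.Th

variable {E : Type} {G : Type*} [Group G]

/-- There is a walk from the vertex of the dart `d` to the vertex of the dart `e` which passes
only darts in `H`. -/
inductive Thru (Γ : CMap E) (H : Set E) : E → E → Prop
  | refl (d : E) : Thru Γ H d d
  | rot (d e : E) (h : Thru Γ H (Γ.rot d) e) : Thru Γ H d e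
  | pass (d e : E) (hd : d ∈ H) (h : Thru Γ H (Γ.flip d) e) : Thru Γ H d e

/-- The faces in `A` are the faces on one side of a closed curve, which consists of the edges of
`δ`, `y`, `c` and of edges both ends of which are in `U` or both ends of which are in `V`. -/
structure Curve (Γ : CMap E) (δ y c : E) (U V A : Set E) : Prop where
  face : ∀ e, Γ.flip (Γ.rot e) ∈ A ↔ e ∈ A
  mem : δ ∈ A
  not_mem : Γ.flip δ ∉ A
  change : ∀ e, (e ∈ A ↔ Γ.flip e ∈ A) ∨
    e ∈ ({δ, Γ.flip δ, y, Γ.flip y, c, Γ.flip c} : Set E) ∨ (e ∈ U ∧ Γ.flip e ∈ U) ∨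
      (e ∈ V ∧ Γ.flip e ∈ V)

/-- `y` leads from `U` to a vertex, and `c` leads from this vertex to `V`; the darts of `D` and of
`H'` are on one side of the curve through `δ`, `y` and `c`.  The slopes of the edges of `y`, `c`
and of the darts in `D` are at least `1`. -/
structure Fork {Γ : CMap E} (L : Lab G Γ) (δ y c : E) (D U V H H' A : Set E) : Prop where
  mem : y ∈ H ∧ c ∈ H ∧ D ⊆ H
  ne : y ∉ D ∧ c ∉ D
  slope : L.Within y 1 ∧ L.Within c 1 ∧ ∀ d ∈ D, L.Within d 1
  first : y ∈ U ∧ Γ.flip y ∉ V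
  mid : Γ.rot.SameCycle (Γ.flip y) c
  last : Γ.flip c ∈ V ∧ c ∉ U
  curve : Curve Γ δ y c U V A
  sub : H' ⊆ H
  side : (∀ e ∈ D ∪ H', e ≠ y → e ≠ c → e ∉ A ∧ Γ.flip e ∉ A) ∨
    ∀ e ∈ D ∪ H', e ≠ y → e ≠ c → e ∈ A ∧ Γ.flip e ∈ A

/-- `Tongue δ q U V H`: the diagram, the vertices of `U` and of `V` being contracted, reduces to
one edge of slope at least `1` from `U` to `V`, and another way from `U` to `V` if `q` does not
hold.  Only darts in `H` are used.  If the darts in `D` lead from `U` to some vertices, these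
vertices are added to `U` and `c` is deleted; if they lead from some vertices to `V`, these
vertices are added to `V` and `y` is deleted. -/
inductive Tongue {Γ : CMap E} (L : Lab G Γ) (δ : E) : Bool → Set E → Set E → Set E → Prop
  | edge (U V H : Set E) (e : E) (h1 : e ∈ H) (h2 : e ∈ U) (h3 : Γ.flip e ∈ V)
      (h4 : L.Within e 1) : Tongue L δ true U V H
  | pair (U V H : Set E) (e : E) (h1 : e ∈ H) (h2 : e ∈ U) (h3 : Γ.flip e ∈ V)
      (h4 : L.Within e 1) (d d' : E) (h5 : d ∈ U) (h6 : d' ∈ V) (h7 : Thru Γ (H \ {e}) d d') :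
      Tongue L δ false U V H
  | top (q : Bool) (D U V H H' A : Set E) (y c : E) (F : Fork L δ y c D U V H H' A)
      (h1 : D ⊆ U) (h2 : c ∉ H')
      (h : Tongue L δ q (U ∪ {e | ∃ d ∈ D, Γ.rot.SameCycle (Γ.flip d) e}) V H') :
      Tongue L δ q U V H
  | bot (q : Bool) (D U V H H' A : Set E) (y c : E) (F : Fork L δ y c D U V H H' A)
      (h1 : ∀ d ∈ D, Γ.flip d ∈ V) (h2 : y ∉ H')
      (h : Tongue L δ q U (V ∪ {e | ∃ d ∈ D, Γ.rot.SameCycle d e}) H') : Tongue L δ q U V H

/-- The vertices which can be reached from the start of `δ` by a walk of length at most `k`. -/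
def Upper {Γ : CMap E} (L : Lab G Γ) (δ : E) (k : ℕ) : Set E := {e | ∃ n ≤ k, L.Walk δ δ e n}

/-- The vertices from which the end of `δ` can be reached by a walk of length at most `k`. -/
def Lower {Γ : CMap E} (L : Lab G Γ) (δ : E) (k : ℕ) : Set E :=
  {e | ∃ n ≤ k, L.Walk δ e (Γ.flip δ) n}

/-- The diagram reduces to one edge, and the slope of `δ` is larger than `-1 / (k₁ + k₂ + 1)`
(`s`), or there is another way at the end of the reduction or, for each dart used at the first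
step, from the start of `δ`. -/
inductive Reduces {Γ : CMap E} (L : Lab G Γ) (δ : E) (s : Bool) : ℕ → ℕ → Prop
  | strict (k₁ k₂ : ℕ) (H : Set E) (hH : δ ∉ H ∧ Γ.flip δ ∉ H) (q : Bool)
      (hq : q = true → s = true) (h : Tongue L δ q (Upper L δ k₁) (Lower L δ k₂) H) :
      Reduces L δ s k₁ k₂
  | third (k₂ : ℕ) (D H H' A : Set E) (hH : δ ∉ H ∧ Γ.flip δ ∉ H) (c : E) (i : ℕ)
      (F : Fork L δ ((Γ.rot ^ i) δ) c D (Upper L δ 0) (Lower L δ k₂) H H' A) (h2 : c ∉ H')
      (ht : ∀ d ∈ D, ∃ j, (Γ.rot ^ j) δ = d ∧ (∀ l, 0 < l → l ≤ i ∨ l ≤ j → (Γ.rot ^ l) δ ≠ δ) ∧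
        Γ.Third δ {i, j})
      (h : Tongue L δ true (Upper L δ 0 ∪ {e | ∃ d ∈ D, Γ.rot.SameCycle (Γ.flip d) e})
        (Lower L δ k₂) H') : Reduces L δ s 0 k₂

end Pool.Agent.Helper33.TG
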