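import Mathlib
import Pool.Agent.Helper42.T5.Side
import Pool.Agent.Helper33.TG.Defs

/-!
The inequalities which are preserved by the reductions of a labelled graph with one negative edge,
and the order in which the edges cross a level.
-/

set_option autoImplicit false

namespace Pool.Agent.Helper33.TG

open Pool.Agent.Helper42.Th Pool.Agent.Helper31.T3 Pool.Agent.Helper31.CUT
open Pool.Agent.Helper42.T5

variable {E : Type} {J : Type*} [LinearOrder J]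

/-- The slope of the edge is at least `1`: `h` are the heights of the vertices, `g` are the labels
of the faces. -/
def Sq (Γ : CMap E) (h g : E → J ≃o J) (e : E) : Prop :=
  ∀ t s, h (Γ.flip e) t ≤ h e t → g e t ≤ g (Γ.flip e) s → h e t ≤ h (Γ.flip e) s

/-- The dart `e` descends at `t`, and it meets levels between `β t` and `α t`. -/
def Live (Γ : CMap E) (h : E → J ≃o J) (α β : J ≃o J) (e : E) (t : J) : Prop :=
  h (Γ.flip e) t < h e t ∧ h (Γ.flip e) t < α t ∧ β t < h e t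

/-- The bounds for an edge of slope at least `1`, the top and the bottom of which are replaced by
`τ` and `σ`. -/
structure Good (Γ : CMap E) (h g : E → J ≃o J) (U V : Set E) (α β ρ lam : J ≃o J) (e : E)
    (τ σ : J ≃o J) : Prop where
  τ_le : ∀ t, τ t ≤ h e t
  le_σ : ∀ t, h (Γ.flip e) t ≤ σ t
  τ_eq : e ∉ U → ∀ t, τ t = h e t
  τ_ge : e ∈ U → ∀ t, α t ≤ τ t
  σ_eq : Γ.flip e ∉ V → ∀ t, σ t = h (Γ.flip e) t
  σ_le : Γ.flip e ∈ V → ∀ t, σ t ≤ β t
  w1 : ∀ t s, Live Γ h α β e s → σ s ≤ τ t → ρ s ≤ g e t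
  w2 : ∀ t s, Live Γ h α β e t → σ s ≤ τ t → g (Γ.flip e) s ≤ lam t
  w3 : ∀ t s, Live Γ h α β e t → Live Γ h α β e s → σ s ≤ τ t → ρ s ≤ lam t

/-- The inequalities at a stage of the reduction. -/
structure Stage (Γ : CMap E) (δ : E) (h g : E → J ≃o J) (U V H : Set E) (α β ρ lam : J ≃o J)
    (Z : Set E) : Prop where
  harm : ∀ t, Harm Γ δ (fun d => h d t) (fun d => g d t)
  dU : δ ∈ U
  dV : Γ.flip δ ∈ V
  ne : ∀ e ∈ H, e ≠ δ ∧ e ≠ Γ.flip δ
  lt : ∀ t, β t < α t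
  link : ∀ t s, β s = α t → ρ s = lam t
  hU : ∀ e ∈ U, ∀ t, α t ≤ h e t
  hV : ∀ e ∈ V, ∀ t, h e t ≤ β t
  w0 : ∀ e ∈ H, ∀ t, Live Γ h α β e t → ρ t < g e t ∧ g (Γ.flip e) t < lam t
  w1 : ∀ e ∈ H, Sq Γ h g e → ∃ τ σ, Good Γ h g U V α β ρ lam e τ σ ∧
    (e ∉ Z → e ∈ U → ∀ t, α t < τ t)

variable {Γ : CMap E} {δ : E} {h g : E → J ≃o J} {U V H : Set E} {α β ρ lam : J ≃o J} {Z : Set E}

/-- The level set above `ℓ`. -/
lemma lev1 (S : Stage Γ δ h g U V H α β ρ lam Z) {t ℓ : J} (h1 : β t ≤ ℓ) (h2 : ℓ < α t) :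
    WLevel Γ δ (fun d => h d t) {d | ℓ < h d t} := by
  refine ⟨fun d => ?_, fun d hd e he => ?_, h2.trans_le (S.hU _ S.dU t), fun h3 => ?_⟩
  · change ℓ < h (Γ.rot d) t ↔ ℓ < h d t
    rw [show h (Γ.rot d) t = h d t from (S.harm t).f_rot d]
  · exact (not_lt.mp he).trans hd.le
  · exact absurd (h3 : ℓ < h (Γ.flip δ) t) (not_lt.mpr ((S.hV _ S.dV t).trans h1))

/-- The level set from `ℓ` on. -/
lemma lev2 (S : Stage Γ δ h g U V H α β ρ lam Z) {t ℓ : J} (h1 : β t < ℓ) (h2 : ℓ ≤ α t) :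
    WLevel Γ δ (fun d => h d t) {d | ℓ ≤ h d t} := by
  refine ⟨fun d => ?_, fun d hd e he => ?_, h2.trans (S.hU _ S.dU t), fun h3 => ?_⟩
  · change ℓ ≤ h (Γ.rot d) t ↔ ℓ ≤ h d t
    rw [show h (Γ.rot d) t = h d t from (S.harm t).f_rot d]
  · exact (not_le.mp he).le.trans hd
  · exact absurd (h3 : ℓ ≤ h (Γ.flip δ) t) (not_le.mpr ((S.hV _ S.dV t).trans_lt h1))

/-- A path from `U` to `V` of two edges, and a curve. -/
structure Pth (Γ : CMap E) (δ y c : E) (U V A : Set E) : Prop where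
  first : y ∈ U
  mid : Γ.rot.SameCycle (Γ.flip y) c
  last : Γ.flip c ∈ V
  curve : Curve Γ δ y c U V A

variable {y c d : E} {A S : Set E}

/-- The darts of the curve which leave a level set. -/
lemma Pth.cut (P : Pth Γ δ y c U V A) (hr : ∀ d, Γ.rot d ∈ S ↔ d ∈ S) (h1 : ∀ d ∈ U, d ∈ S)
    (h2 : ∀ d ∈ V, d ∉ S) (dV : Γ.flip δ ∈ V) :
    (c ∈ S → ∀ d, Cut Γ S d → d ≠ δ → d ≠ c → (d ∈ A ↔ Γ.flip d ∈ A)) ∧
      (c ∉ S → ∀ d, Cut Γ S d → d ≠ δ → d ≠ y → (d ∈ A ↔ Γ.flip d ∈ A)) := by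
  have hS : ∀ d, (Γ.rot d ∈ S) = (d ∈ S) := fun d => propext (hr d)
  have hm : (Γ.flip y ∈ S) = (c ∈ S) := (same_eq (f := fun d => d ∈ S) hS P.mid).symm
  have key : ∀ d, Cut Γ S d → d ≠ δ → (d ∈ A ↔ Γ.flip d ∈ A) ∨ (d = y ∧ Γ.flip y ∉ S) ∨
      (d = c ∧ c ∈ S) := by
    intro d hd h3
    rcases P.curve.change d with h4 | h4 | h4 | h4
    · exact Or.inl h4
    · rcases h4 with h4 | h4 | h4 | h4 | h4 | h4
      · exact absurd h4 h3
      · exact absurd hd.1 (h4 ▸ h2 _ dV)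
      · exact Or.inr (Or.inl ⟨h4, h4 ▸ hd.2⟩)
      · have h5 := hd.2
        rw [h4, Γ.flip_flip] at h5
        exact absurd (h1 _ P.first) h5
      · exact Or.inr (Or.inr ⟨h4, h4 ▸ hd.1⟩)
      · exact absurd hd.1 (h4 ▸ h2 _ P.last)
    · exact absurd (h1 _ h4.2) hd.2
    · exact absurd hd.1 (h2 _ h4.1)
  constructor
  · intro hc d hd h3 h4
    rcases key d hd h3 with h5 | ⟨-, h5⟩ | ⟨h5, -⟩
    · exact h5
    · rw [hm] at h5
      exact absurd hc h5
    · exact absurd h5 h4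
  · intro hc d hd h3 h4
    rcases key d hd h3 with h5 | ⟨h5, -⟩ | ⟨-, h5⟩
    · exact h5
    · exact absurd h5 h4
    · exact absurd h5 hc

variable [Finite E]

/-- The curve crosses the level once, at `e`; the dart `e'` is behind the curve. -/
theorem cut_off {Ω₁ Ω₂ : Type*} [LinearOrder Ω₁] [LinearOrder Ω₂] {f : E → Ω₁} {g : E → Ω₂}
    (h : Harm Γ δ f g) (L : WLevel Γ δ f S) (p : E → Prop)
    (hp : ∀ d, p (Γ.flip (Γ.rot d)) ↔ p d) (hp1 : p δ) {e e' : E}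
    (he' : Cut Γ S e') (heδ' : e' ≠ δ) (hd : f (Γ.flip e') < f e')
    (hpe : ∀ d, Cut Γ S d → d ≠ δ → d ≠ e → (p d ↔ p (Γ.flip d)))
    (hq : ¬ p (Γ.flip e')) : g e ≤ g (Γ.flip e') := by
  have key : ∀ a, Walk Γ δ S δ a → p a ∨ g e ≤ g a := by
    intro a ha
    induction ha with
    | refl => exact Or.inl hp1
    | step a b hw hn hb ih =>
      rcases ih with ih | ih
      · by_cases h4 : b = e
        · right
          rw [h4]
        · left
          apply (hpe b hn.1 hb h4).mpr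
          have := hn.face p (fun d => propext (hp d))
          rw [this]
          exact ih
      · exact Or.inr (ih.trans (wstep_le h L hn hb))
  obtain ⟨a, ha, hn⟩ := wfirst h L he' heδ' hd
  rw [hn.face g h.g_rot]
  rcases key a ha with h1 | h1
  · exfalso
    have h2 := hn.face p (fun d => propext (hp d))
    exact hq (h2 ▸ h1)
  · exact h1

/-- The dart `e` is on the left side of the path. -/
lemma right_of (St : Stage Γ δ h g U V H α β ρ lam Z) (P : Pth Γ δ y c U V A) {t : J}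
    (L : WLevel Γ δ (fun d => h d t) S) (h1 : ∀ d ∈ U, d ∈ S) (h2 : ∀ d ∈ V, d ∉ S) {e : E}
    (he : Cut Γ S e) (hd : h (Γ.flip e) t < h e t) (hA : e ∉ A ∧ Γ.flip e ∉ A) :
    (c ∈ S → g c t ≤ g (Γ.flip e) t) ∧ (c ∉ S → g y t ≤ g (Γ.flip e) t) := by
  have hne : e ≠ δ := by
    rintro rfl
    exact hA.1 P.curve.mem
  obtain ⟨k1, k2⟩ := P.cut L.rot h1 h2 St.dV
  exact ⟨fun hc => cut_off (St.harm t) L (fun d => d ∈ A) P.curve.face P.curve.mem he hne hd
    (k1 hc) hA.2, fun hc => cut_off (St.harm t) L (fun d => d ∈ A) P.curve.face P.curve.mem he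
    hne hd (k2 hc) hA.2⟩

/-- The dart `e` is on the right side of the path. -/
lemma left_of (St : Stage Γ δ h g U V H α β ρ lam Z) (P : Pth Γ δ y c U V A) {t : J}
    (L : WLevel Γ δ (fun d => h d t) S) (h1 : ∀ d ∈ U, d ∈ S) (h2 : ∀ d ∈ V, d ∉ S) {e : E}
    (he : Cut Γ S e) (hd : h (Γ.flip e) t < h e t) (hA : e ∈ A ∧ Γ.flip e ∈ A) :
    (c ∈ S → g e t ≤ g (Γ.flip c) t) ∧ (c ∉ S → g e t ≤ g (Γ.flip y) t) := by
  have hne : e ≠ δ := by
    rintro rfl
    exact P.curve.not_mem hA.2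
  obtain ⟨k1, k2⟩ := P.cut L.rot h1 h2 St.dV
  exact ⟨fun hc => cut_in (St.harm t) L (fun d => d ∈ A) P.curve.face P.curve.not_mem he hne hd
    (k1 hc) hA.1, fun hc => cut_in (St.harm t) L (fun d => d ∈ A) P.curve.face P.curve.not_mem he
    hne hd (k2 hc) hA.1⟩

end Pool.Agent.Helper33.TG
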