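import Mathlib
import Pool.Agent.Helper33.TG.Bound

/-!
The four steps of the reduction of a labelled graph with one negative edge.
-/

set_option autoImplicit false

namespace Pool.Agent.Helper33.TG

open Pool.Agent.Helper42.Th Pool.Agent.Helper31.T3 Pool.Agent.Helper31.CUT
open Pool.Agent.Helper42.T5

variable {E : Type} {J : Type*} [LinearOrder J]

variable {Γ : CMap E} {δ : E} {h g : E → J ≃o J} {U V H : Set E} {α β ρ lam : J ≃o J} {Z : Set E}
  {y c : E} {A K : Set E}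

/-- An edge on the left side keeps its top and its bottom. -/
lemma Good.stepL (St : Stage Γ δ h g U V H α β ρ lam Z) {e : E} (he : e ∈ H) (sq : Sq Γ h g e)
    {τ σ : J ≃o J} (G : Good Γ h g U V α β ρ lam e τ σ) {U' V' : Set E} {α' β' ρ' : J ≃o J}
    (hα : ∀ t, α' t ≤ α t) (hβ : ∀ t, β t ≤ β' t)
    (n1 : ∀ s, Live Γ h α' β' e s → ρ' s ≤ g (Γ.flip e) s)
    (u1 : e ∉ U' → e ∉ U) (u2 : e ∈ U' → ∀ t, α' t ≤ τ t)
    (v1 : Γ.flip e ∉ V' → Γ.flip e ∉ V) (v2 : Γ.flip e ∈ V' → ∀ t, σ t ≤ β' t) :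
    Good Γ h g U' V' α' β' ρ' lam e τ σ := by
  have live : ∀ t, Live Γ h α' β' e t → Live Γ h α β e t := fun t ht =>
    ⟨ht.1, ht.2.1.trans_le (hα t), (hβ t).trans_lt ht.2.2⟩
  refine ⟨G.τ_le, G.le_σ, fun h1 => G.τ_eq (u1 h1), u2, fun h1 => G.σ_eq (v1 h1), v2, ?_, ?_, ?_⟩
  · intro t s h1 h2
    exact (n1 s h1).trans (steep St he sq (Or.inr h1.1)
      ((G.le_σ s).trans (h2.trans (G.τ_le t))))
  · intro t s h1 h2
    exact G.w2 t s (live t h1) h2
  · intro t s h1 h2 h3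
    exact (n1 s h2).trans (G.w2 t s (live t h1) h3)

/-- An edge on the right side keeps its top and its bottom. -/
lemma Good.stepR (St : Stage Γ δ h g U V H α β ρ lam Z) {e : E} (he : e ∈ H) (sq : Sq Γ h g e)
    {τ σ : J ≃o J} (G : Good Γ h g U V α β ρ lam e τ σ) {U' V' : Set E} {α' β' lam' : J ≃o J}
    (hα : ∀ t, α' t ≤ α t) (hβ : ∀ t, β t ≤ β' t)
    (n2 : ∀ t, Live Γ h α' β' e t → g e t ≤ lam' t)
    (u1 : e ∉ U' → e ∉ U) (u2 : e ∈ U' → ∀ t, α' t ≤ τ t)
    (v1 : Γ.flip e ∉ V' → Γ.flip e ∉ V) (v2 : Γ.flip e ∈ V' → ∀ t, σ t ≤ β' t) :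
    Good Γ h g U' V' α' β' ρ lam' e τ σ := by
  have live : ∀ t, Live Γ h α' β' e t → Live Γ h α β e t := fun t ht =>
    ⟨ht.1, ht.2.1.trans_le (hα t), (hβ t).trans_lt ht.2.2⟩
  refine ⟨G.τ_le, G.le_σ, fun h1 => G.τ_eq (u1 h1), u2, fun h1 => G.σ_eq (v1 h1), v2, ?_, ?_, ?_⟩
  · intro t s h1 h2
    exact G.w1 t s (live s h1) h2
  · intro t s h1 h2
    exact (steep St he sq (Or.inl h1.1) ((G.le_σ s).trans (h2.trans (G.τ_le t)))).trans (n2 t h1)
  · intro t s h1 h2 h3
    exact (G.w1 t s (live s h2) h3).trans (n2 t h1)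

namespace Mv

variable (M : Mv Γ δ h g U V H α β ρ lam Z y c A K) [Finite E]
include M

/-- The top move, the other darts being on the left side. -/
theorem stepTL (hK : OnL Γ y c A K) {D : Set E} (hD : ∀ d ∈ D, d ∈ K ∧ d ≠ y ∧ d ≠ c)
    (sd : ∀ d ∈ D, Sq Γ h g d) (hd : D ⊆ U) {H' : Set E} (hH : ∀ e ∈ H', e ∈ K) (hc' : c ∉ H')
    {Z' : Set E} (hZ1 : y ∈ Z')
    (hZ2 : (∀ e, e ∈ Z') ∨ ∀ d ∈ D, d ∉ Z ∨ y ∉ Z ∨ Ext Γ g ρ lam y d) :
    Stage Γ δ h g (U ∪ {e | ∃ d ∈ D, Γ.rot.SameCycle (Γ.flip d) e}) V H'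
      ((α.trans (h c).symm).trans β) β (((h c).trans β.symm).trans ρ) lam
      Z' := by
  have nd1 := M.ndL1 hK
  have nd2 := M.ndL2 hK
  have hP : ∀ t, h c ((h c).symm (α t)) = α t := fun t => (h c).apply_symm_apply _
  have hQ : ∀ t, β (β.symm (h c t)) = h c t := fun t => β.apply_symm_apply _
  have hα : ∀ t, β ((h c).symm (α t)) < α t := fun t => by
    conv_rhs => rw [← hP t]
    exact nd2 _
  have hw : ∀ d (hd' : d ∈ D) (t : J), β ((h c).symm (α t)) ≤ h (Γ.flip d) t ∧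
      (d ∉ Z ∨ y ∉ Z ∨ Ext Γ g ρ lam y d → β ((h c).symm (α t)) < h (Γ.flip d) t) :=
    fun d hd' t => M.topL hK (hD d hd').1 (hD d hd').2.1 (hD d hd').2.2 (sd d hd') (hd hd') (hP t)
  have horb : ∀ {d e}, Γ.rot.SameCycle (Γ.flip d) e → ∀ t, h e t = h (Γ.flip d) t :=
    fun he t => same_eq (f := fun d => h d t) (M.st.harm t).f_rot he
  have hlt : ∀ t, β t < β ((h c).symm (α t)) := fun t => by
    apply β.strictMono
    rw [← (h c).lt_iff_lt, hP]
    exact nd1 t
  have n1 : ∀ e ∈ H', e ≠ y → ∀ s, Live Γ h ((α.trans (h c).symm).trans β) β e s →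
      ρ (β.symm (h c s)) ≤ g (Γ.flip e) s := by
    rintro e he h3 s ⟨l1, l2, l3⟩
    have l2' : h (Γ.flip e) s < β ((h c).symm (α s)) := l2
    have hec : e ≠ c := fun h4 => hc' (h4 ▸ he)
    have hℓ : max (h (Γ.flip e) s) (β s) < β ((h c).symm (α s)) := max_lt l2' (hlt s)
    obtain ⟨k1, k2⟩ := M.nL hK (hH e he) h3 hec (le_max_right _ _) (hℓ.trans (hα s))
      (le_max_left _ _) (max_lt l1 l3)
    rcases lt_or_ge (max (h (Γ.flip e) s) (β s)) (h c s) with h4 | h4
    · exact k1 h4 _ (hQ s)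
    · refine (ρ.monotone ?_).trans (k2 h4 _ (hP s))
      rw [← β.le_iff_le, hQ]
      exact h4.trans hℓ.le
  refine ⟨M.st.harm, Or.inl M.st.dU, M.st.dV, fun e he => M.st.ne e (M.KH e (hH e he)), hlt, ?_,
    ?_, M.st.hV, ?_, ?_⟩
  · intro t s hs
    have h3 : s = (h c).symm (α t) := β.injective hs
    change ρ (β.symm (h c s)) = lam t
    rw [h3, hP]
    exact M.st.link t _ (β.apply_symm_apply _)
  · rintro e (he | ⟨d, hdD, he⟩) t
    · exact (hα t).le.trans (M.st.hU e he t)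
    · rw [horb he t]
      exact (hw d hdD t).1
  · intro e he t ht
    have ht' : Live Γ h α β e t := ⟨ht.1, ht.2.1.trans (hα t), ht.2.2⟩
    obtain ⟨w1, w2⟩ := M.st.w0 e (M.KH e (hH e he)) t ht'
    refine ⟨?_, w2⟩
    by_cases hey : e = y
    · rw [hey] at ht ⊢
      have h3 : h c t < β ((h c).symm (α t)) := by
        rw [← M.hx]
        exact ht.2.1
      refine lt_of_lt_of_le (ρ.strictMono ?_) (M.y1 nd1 (hP t))
      rw [← β.lt_iff_lt]
      change β (β.symm (h c t)) < _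
      rw [hQ]
      exact h3
    · exact (n1 e he hey t ht).trans_lt (label_lt M.st (M.KH e (hH e he)) ht.1)
  · intro e he sq
    obtain ⟨τ, σ, G, hst⟩ := M.st.w1 e (M.KH e (hH e he)) sq
    by_cases hey : e = y
    · rw [hey] at G ⊢
      refine ⟨(α.trans (h c).symm).trans β, σ, ?_, fun h3 => absurd hZ1 h3⟩
      have sX : ∀ s, σ s = h c s := fun s => (G.σ_eq M.hy s).trans (M.hx s)
      refine ⟨fun t => (hα t).le.trans ((G.τ_ge M.pth.first t).trans (G.τ_le t)), G.le_σ,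
        fun h3 => absurd (Or.inl M.pth.first) h3, fun _ t => le_rfl, G.σ_eq, G.σ_le, ?_, ?_, ?_⟩
      · intro t s _ h4
        change ρ (β.symm (h c s)) ≤ g y t
        refine (ρ.monotone ?_).trans (M.y1 nd1 (hP t))
        rw [← β.le_iff_le, hQ, ← sX]
        exact h4
      · intro t s h3 h4
        refine G.w2 t s ⟨h3.1, h3.2.1.trans (hα t), h3.2.2⟩ (h4.trans ?_)
        exact (hα t).le.trans (G.τ_ge M.pth.first t)
      · intro t s _ _ h4
        change ρ (β.symm (h c s)) ≤ lam t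
        obtain ⟨s', hs'⟩ := β.surjective (α t)
        rw [← M.st.link t s' hs']
        apply ρ.monotone
        rw [← β.le_iff_le, hQ, ← sX, hs']
        exact h4.trans (hα t).le
    · have hτU : e ∈ U → ∀ t, β ((h c).symm (α t)) < τ t := fun h3 t =>
        (hα t).trans_le (G.τ_ge h3 t)
      refine ⟨τ, σ, G.stepL M.st (M.KH e (hH e he)) sq (fun t => (hα t).le) (fun t => le_rfl)
        (n1 e he hey) (fun h3 h4 => h3 (Or.inl h4)) ?_ id G.σ_le, ?_⟩
      · intro h3 t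
        by_cases h4 : e ∈ U
        · exact (hτU h4 t).le
        · rw [G.τ_eq h4 t]
          rcases h3 with h3 | ⟨d, hdD, h3⟩
          · exact absurd h3 h4
          · rw [horb h3 t]
            exact (hw d hdD t).1
      · intro hZ h3 t
        by_cases h4 : e ∈ U
        · exact hτU h4 t
        · rw [G.τ_eq h4 t]
          rcases h3 with h3 | ⟨d, hdD, h3⟩
          · exact absurd h3 h4
          · rw [horb h3 t]
            exact (hw d hdD t).2 (hZ2.resolve_left (fun h5 => hZ (h5 e)) d hdD)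

/-- The top move, the other darts being on the right side. -/
theorem stepTR (hK : OnR Γ y c A K) {D : Set E} (hD : ∀ d ∈ D, d ∈ K ∧ d ≠ y ∧ d ≠ c)
    (sd : ∀ d ∈ D, Sq Γ h g d) (hd : D ⊆ U) {H' : Set E} (hH : ∀ e ∈ H', e ∈ K) (hc' : c ∉ H')
    {Z' : Set E} (hZ1 : y ∈ Z')
    (hZ2 : (∀ e, e ∈ Z') ∨ ∀ d ∈ D, d ∉ Z ∨ y ∉ Z ∨ Ext Γ g ρ lam d y) :
    Stage Γ δ h g (U ∪ {e | ∃ d ∈ D, Γ.rot.SameCycle (Γ.flip d) e}) V H'
      ((β.trans (h c).symm).trans α) β ρ ((β.trans (h c).symm).trans lam)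
      Z' := by
  have nd1 := M.ndR1 hK
  have nd2 := M.ndR2 hK
  have hQ : ∀ t, h c ((h c).symm (β t)) = β t := fun t => (h c).apply_symm_apply _
  have hP : ∀ t, α (α.symm (h c t)) = h c t := fun t => α.apply_symm_apply _
  have hqt : ∀ t, (h c).symm (β t) < t := fun t => by
    rw [← (h c).lt_iff_lt, hQ]
    exact nd2 t
  have hα : ∀ t, α ((h c).symm (β t)) < α t := fun t => α.strictMono (hqt t)
  have hw : ∀ d (hd' : d ∈ D) (t : J), α ((h c).symm (β t)) ≤ h (Γ.flip d) t ∧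
      (d ∉ Z ∨ y ∉ Z ∨ Ext Γ g ρ lam d y → α ((h c).symm (β t)) < h (Γ.flip d) t) :=
    fun d hd' t => M.topR hK (hD d hd').1 (hD d hd').2.1 (hD d hd').2.2 (sd d hd') (hd hd') (hQ t)
  have horb : ∀ {d e}, Γ.rot.SameCycle (Γ.flip d) e → ∀ t, h e t = h (Γ.flip d) t :=
    fun he t => same_eq (f := fun d => h d t) (M.st.harm t).f_rot he
  have hlt : ∀ t, β t < α ((h c).symm (β t)) := fun t => by
    conv_lhs => rw [← hQ t]
    exact nd1 _
  have n2 : ∀ e ∈ H', e ≠ y → ∀ s, Live Γ h ((β.trans (h c).symm).trans α) β e s →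
      g e s ≤ lam ((h c).symm (β s)) := by
    rintro e he h3 s ⟨l1, l2, l3⟩
    have l2' : h (Γ.flip e) s < α ((h c).symm (β s)) := l2
    have hec : e ≠ c := fun h4 => hc' (h4 ▸ he)
    have hℓ : max (h (Γ.flip e) s) (β s) < α ((h c).symm (β s)) := max_lt l2' (hlt s)
    obtain ⟨k1, k2⟩ := M.nR hK (hH e he) h3 hec (le_max_right _ _) (hℓ.trans (hα s))
      (le_max_left _ _) (max_lt l1 l3)
    rcases lt_or_ge (max (h (Γ.flip e) s) (β s)) (h c s) with h4 | h4
    · exact k1 h4 _ (hQ s)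
    · refine (k2 h4 _ (hP s)).trans (lam.monotone ?_)
      rw [← α.le_iff_le, hP]
      exact h4.trans hℓ.le
  refine ⟨M.st.harm, Or.inl M.st.dU, M.st.dV, fun e he => M.st.ne e (M.KH e (hH e he)), hlt, ?_,
    ?_, M.st.hV, ?_, ?_⟩
  · intro t s hs
    exact M.st.link _ s hs
  · rintro e (he | ⟨d, hdD, he⟩) t
    · exact (hα t).le.trans (M.st.hU e he t)
    · rw [horb he t]
      exact (hw d hdD t).1
  · intro e he t ht
    have ht' : Live Γ h α β e t := ⟨ht.1, ht.2.1.trans (hα t), ht.2.2⟩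
    obtain ⟨w1, w2⟩ := M.st.w0 e (M.KH e (hH e he)) t ht'
    refine ⟨w1, ?_⟩
    by_cases hey : e = y
    · rw [hey] at ht ⊢
      have h3 : h c t < α ((h c).symm (β t)) := by
        rw [← M.hx]
        exact ht.2.1
      refine lt_of_le_of_lt (M.y2 nd1 (hP t).symm) (lam.strictMono ?_)
      rw [← α.lt_iff_lt, hP]
      exact h3
    · exact (label_lt M.st (M.KH e (hH e he)) ht.1).trans_le (n2 e he hey t ht)
  · intro e he sq
    obtain ⟨τ, σ, G, hst⟩ := M.st.w1 e (M.KH e (hH e he)) sq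
    by_cases hey : e = y
    · rw [hey] at G ⊢
      refine ⟨(β.trans (h c).symm).trans α, σ, ?_, fun h3 => absurd hZ1 h3⟩
      have sX : ∀ s, σ s = h c s := fun s => (G.σ_eq M.hy s).trans (M.hx s)
      refine ⟨fun t => (hα t).le.trans ((G.τ_ge M.pth.first t).trans (G.τ_le t)), G.le_σ,
        fun h3 => absurd (Or.inl M.pth.first) h3, fun _ t => le_rfl, G.σ_eq, G.σ_le, ?_, ?_, ?_⟩
      · intro t s h3 h4
        refine G.w1 t s ⟨h3.1, h3.2.1.trans (hα s), h3.2.2⟩ (h4.trans ?_)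
        exact (hα t).le.trans (G.τ_ge M.pth.first t)
      · intro t s _ h4
        change g (Γ.flip y) s ≤ lam ((h c).symm (β t))
        refine (M.y2 nd1 (hP s).symm).trans (lam.monotone ?_)
        rw [← α.le_iff_le, hP, ← sX]
        exact h4
      · intro t s _ _ h4
        change ρ s ≤ lam ((h c).symm (β t))
        obtain ⟨s', hs'⟩ := β.surjective (α ((h c).symm (β t)))
        rw [← M.st.link _ s' hs']
        apply ρ.monotone
        rw [← β.le_iff_le, hs']
        refine (nd2 s).le.trans ?_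
        rw [← sX]
        exact h4
    · have hτU : e ∈ U → ∀ t, α ((h c).symm (β t)) < τ t := fun h3 t =>
        (hα t).trans_le (G.τ_ge h3 t)
      refine ⟨τ, σ, G.stepR M.st (M.KH e (hH e he)) sq (fun t => (hα t).le) (fun t => le_rfl)
        (n2 e he hey) (fun h3 h4 => h3 (Or.inl h4)) ?_ id G.σ_le, ?_⟩
      · intro h3 t
        by_cases h4 : e ∈ U
        · exact (hτU h4 t).le
        · rw [G.τ_eq h4 t]
          rcases h3 with h3 | ⟨d, hdD, h3⟩
          · exact absurd h3 h4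
          · rw [horb h3 t]
            exact (hw d hdD t).1
      · intro hZ h3 t
        by_cases h4 : e ∈ U
        · exact hτU h4 t
        · rw [G.τ_eq h4 t]
          rcases h3 with h3 | ⟨d, hdD, h3⟩
          · exact absurd h3 h4
          · rw [horb h3 t]
            exact (hw d hdD t).2 (hZ2.resolve_left (fun h5 => hZ (h5 e)) d hdD)

/-- The bottom move, the other darts being on the left side. -/
theorem stepBL (hK : OnL Γ y c A K) {D : Set E} (hD : ∀ d ∈ D, d ∈ K ∧ d ≠ y ∧ d ≠ c)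
    (sd : ∀ d ∈ D, Sq Γ h g d) (hd : ∀ d ∈ D, Γ.flip d ∈ V) {H' : Set E}
    (hH : ∀ e ∈ H', e ∈ K) (hy' : y ∉ H') :
    Stage Γ δ h g U (V ∪ {e | ∃ d ∈ D, Γ.rot.SameCycle d e}) H' α
      ((α.trans (h c).symm).trans β) ((α.trans (h c).symm).trans ρ) lam Z := by
  have nd1 := M.ndL1 hK
  have nd2 := M.ndL2 hK
  have hP : ∀ t, h c ((h c).symm (α t)) = α t := fun t => (h c).apply_symm_apply _
  have hQ : ∀ t, β (β.symm (h c t)) = h c t := fun t => β.apply_symm_apply _
  have hα : ∀ t, β ((h c).symm (α t)) < α t := fun t => by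
    conv_rhs => rw [← hP t]
    exact nd2 _
  have hw := fun d (hd' : d ∈ D) t =>
    M.botL hK (hD d hd').1 (hD d hd').2.1 (hD d hd').2.2 (sd d hd') (hd d hd') (hP t)
  have horb : ∀ {d e}, Γ.rot.SameCycle d e → ∀ t, h e t = h d t := fun he t =>
    same_eq (f := fun d => h d t) (M.st.harm t).f_rot he
  have hlt : ∀ t, β t < β ((h c).symm (α t)) := fun t => by
    apply β.strictMono
    rw [← (h c).lt_iff_lt, hP]
    exact nd1 t
  have n1 : ∀ e ∈ H', e ≠ c → ∀ s, Live Γ h α ((α.trans (h c).symm).trans β) e s →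
      ρ ((h c).symm (α s)) ≤ g (Γ.flip e) s := by
    rintro e he h3 s ⟨l1, l2, l3⟩
    have l3' : β ((h c).symm (α s)) < h e s := l3
    have hey : e ≠ y := fun h4 => hy' (h4 ▸ he)
    have hℓ : max (h (Γ.flip e) s) (β ((h c).symm (α s))) < α s := max_lt l2 (hα s)
    obtain ⟨k1, k2⟩ := M.nL hK (hH e he) hey h3 ((hlt s).le.trans (le_max_right _ _)) hℓ
      (le_max_left _ _) (max_lt l1 l3')
    rcases lt_or_ge (max (h (Γ.flip e) s) (β ((h c).symm (α s)))) (h c s) with h4 | h4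
    · refine (ρ.monotone ?_).trans (k1 h4 _ (hQ s))
      rw [← β.le_iff_le, hQ]
      exact (le_max_right _ _).trans h4.le
    · exact k2 h4 _ (hP s)
  refine ⟨M.st.harm, M.st.dU, Or.inl M.st.dV, fun e he => M.st.ne e (M.KH e (hH e he)), hα, ?_,
    M.st.hU, ?_, ?_, ?_⟩
  · intro t s hs
    exact M.st.link t _ hs
  · rintro e (he | ⟨d, hdD, he⟩) t
    · exact (M.st.hV e he t).trans (hlt t).le
    · rw [horb he t]
      exact hw d hdD t
  · intro e he t ht
    have ht' : Live Γ h α β e t := ⟨ht.1, ht.2.1, (hlt t).trans ht.2.2⟩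
    obtain ⟨w1, w2⟩ := M.st.w0 e (M.KH e (hH e he)) t ht'
    refine ⟨?_, w2⟩
    by_cases hec : e = c
    · rw [hec] at ht ⊢
      refine lt_of_lt_of_le (ρ.strictMono ?_) (M.c1 nd2 (hQ t))
      rw [← β.lt_iff_lt, hQ]
      exact ht.2.2
    · exact (n1 e he hec t ht).trans_lt (label_lt M.st (M.KH e (hH e he)) ht.1)
  · intro e he sq
    obtain ⟨τ, σ, G, hst⟩ := M.st.w1 e (M.KH e (hH e he)) sq
    by_cases hec : e = c
    · rw [hec] at G ⊢
      refine ⟨τ, (α.trans (h c).symm).trans β, ?_, fun _ h3 => absurd h3 M.hc⟩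
      have tX : ∀ s, τ s = h c s := fun s => G.τ_eq M.hc s
      have hcV : ∀ s, h (Γ.flip c) s ≤ β s := fun s => M.st.hV _ M.pth.last s
      refine ⟨G.τ_le, fun t => (hcV t).trans (hlt t).le, G.τ_eq, G.τ_ge,
        fun h3 => absurd (Or.inl M.pth.last) h3, fun _ t => le_rfl, ?_, ?_, ?_⟩
      · intro t s _ h4
        change ρ ((h c).symm (α s)) ≤ g c t
        refine (ρ.monotone ?_).trans (M.c1 nd2 (hQ t))
        rw [← β.le_iff_le, hQ, ← tX]
        exact h4
      · intro t s h3 h4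
        refine G.w2 t s ⟨h3.1, h3.2.1, (hlt t).trans h3.2.2⟩ ?_
        exact (G.σ_le M.pth.last s).trans ((hlt s).le.trans h4)
      · intro t s _ _ h4
        change ρ ((h c).symm (α s)) ≤ lam t
        obtain ⟨s', hs'⟩ := β.surjective (α t)
        rw [← M.st.link t s' hs']
        apply ρ.monotone
        rw [← β.le_iff_le, hs']
        refine le_trans ?_ (nd1 t).le
        rw [← tX]
        exact h4
    · refine ⟨τ, σ, G.stepL M.st (M.KH e (hH e he)) sq (fun t => le_rfl) (fun t => (hlt t).le)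
        (n1 e he hec) id G.τ_ge (fun h3 h4 => h3 (Or.inl h4)) ?_, hst⟩
      intro h3 t
      by_cases h4 : Γ.flip e ∈ V
      · exact (G.σ_le h4 t).trans (hlt t).le
      · rw [G.σ_eq h4 t]
        rcases h3 with h3 | ⟨d, hdD, h3⟩
        · exact absurd h3 h4
        · rw [horb h3 t]
          exact hw d hdD t

/-- The bottom move, the other darts being on the right side. -/
theorem stepBR (hK : OnR Γ y c A K) {D : Set E} (hD : ∀ d ∈ D, d ∈ K ∧ d ≠ y ∧ d ≠ c)
    (sd : ∀ d ∈ D, Sq Γ h g d) (hd : ∀ d ∈ D, Γ.flip d ∈ V) {H' : Set E}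
    (hH : ∀ e ∈ H', e ∈ K) (hy' : y ∉ H') :
    Stage Γ δ h g U (V ∪ {e | ∃ d ∈ D, Γ.rot.SameCycle d e}) H' α
      ((β.trans (h c).symm).trans α) ρ (((h c).trans α.symm).trans lam) Z := by
  have nd1 := M.ndR1 hK
  have nd2 := M.ndR2 hK
  have hQ : ∀ t, h c ((h c).symm (β t)) = β t := fun t => (h c).apply_symm_apply _
  have hP : ∀ t, α (α.symm (h c t)) = h c t := fun t => α.apply_symm_apply _
  have hqt : ∀ t, (h c).symm (β t) < t := fun t => by
    rw [← (h c).lt_iff_lt, hQ]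
    exact nd2 t
  have hα : ∀ t, α ((h c).symm (β t)) < α t := fun t => α.strictMono (hqt t)
  have hw := fun d (hd' : d ∈ D) t =>
    M.botR hK (hD d hd').1 (hD d hd').2.1 (hD d hd').2.2 (sd d hd') (hd d hd') (hQ t)
  have horb : ∀ {d e}, Γ.rot.SameCycle d e → ∀ t, h e t = h d t := fun he t =>
    same_eq (f := fun d => h d t) (M.st.harm t).f_rot he
  have hlt : ∀ t, β t < α ((h c).symm (β t)) := fun t => by
    conv_lhs => rw [← hQ t]
    exact nd1 _
  have n2 : ∀ e ∈ H', e ≠ c → ∀ s, Live Γ h α ((β.trans (h c).symm).trans α) e s →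
      g e s ≤ lam (α.symm (h c s)) := by
    rintro e he h3 s ⟨l1, l2, l3⟩
    have l3' : α ((h c).symm (β s)) < h e s := l3
    have hey : e ≠ y := fun h4 => hy' (h4 ▸ he)
    have hℓ : max (h (Γ.flip e) s) (α ((h c).symm (β s))) < α s := max_lt l2 (hα s)
    obtain ⟨k1, k2⟩ := M.nR hK (hH e he) hey h3 ((hlt s).le.trans (le_max_right _ _)) hℓ
      (le_max_left _ _) (max_lt l1 l3')
    rcases lt_or_ge (max (h (Γ.flip e) s) (α ((h c).symm (β s)))) (h c s) with h4 | h4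
    · refine (k1 h4 _ (hQ s)).trans (lam.monotone ?_)
      rw [← α.le_iff_le, hP]
      exact (le_max_right _ _).trans h4.le
    · exact k2 h4 _ (hP s)
  refine ⟨M.st.harm, M.st.dU, Or.inl M.st.dV, fun e he => M.st.ne e (M.KH e (hH e he)), hα, ?_,
    M.st.hU, ?_, ?_, ?_⟩
  · intro t s hs
    have h3 : (h c).symm (β s) = t := α.injective hs
    refine M.st.link _ s ?_
    change β s = α (α.symm (h c t))
    rw [hP, ← h3, hQ]
  · rintro e (he | ⟨d, hdD, he⟩) t
    · exact (M.st.hV e he t).trans (hlt t).le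
    · rw [horb he t]
      exact hw d hdD t
  · intro e he t ht
    have ht' : Live Γ h α β e t := ⟨ht.1, ht.2.1, (hlt t).trans ht.2.2⟩
    obtain ⟨w1, w2⟩ := M.st.w0 e (M.KH e (hH e he)) t ht'
    refine ⟨w1, ?_⟩
    by_cases hec : e = c
    · rw [hec] at ht ⊢
      refine lt_of_le_of_lt (M.c2 nd2 (hQ t).symm) (lam.strictMono ?_)
      rw [← α.lt_iff_lt]
      change _ < α (α.symm (h c t))
      rw [hP]
      exact ht.2.2
    · exact (label_lt M.st (M.KH e (hH e he)) ht.1).trans_le (n2 e he hec t ht)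
  · intro e he sq
    obtain ⟨τ, σ, G, hst⟩ := M.st.w1 e (M.KH e (hH e he)) sq
    by_cases hec : e = c
    · rw [hec] at G ⊢
      refine ⟨τ, (β.trans (h c).symm).trans α, ?_, fun _ h3 => absurd h3 M.hc⟩
      have tX : ∀ s, τ s = h c s := fun s => G.τ_eq M.hc s
      have hcV : ∀ s, h (Γ.flip c) s ≤ β s := fun s => M.st.hV _ M.pth.last s
      refine ⟨G.τ_le, fun t => (hcV t).trans (hlt t).le, G.τ_eq, G.τ_ge,
        fun h3 => absurd (Or.inl M.pth.last) h3, fun _ t => le_rfl, ?_, ?_, ?_⟩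
      · intro t s h3 h4
        refine G.w1 t s ⟨h3.1, h3.2.1, (hlt s).trans h3.2.2⟩ ?_
        exact (G.σ_le M.pth.last s).trans ((hlt s).le.trans h4)
      · intro t s _ h4
        change g (Γ.flip c) s ≤ lam (α.symm (h c t))
        refine (M.c2 nd2 (hQ s).symm).trans (lam.monotone ?_)
        rw [← α.le_iff_le, hP, ← tX]
        exact h4
      · intro t s _ _ h4
        change ρ s ≤ lam (α.symm (h c t))
        obtain ⟨s', hs'⟩ := β.surjective (α (α.symm (h c t)))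
        rw [← M.st.link _ s' hs']
        apply ρ.monotone
        rw [← β.le_iff_le, hs', hP]
        refine (hlt s).le.trans ?_
        rw [← tX]
        exact h4
    · refine ⟨τ, σ, G.stepR M.st (M.KH e (hH e he)) sq (fun t => le_rfl) (fun t => (hlt t).le)
        (n2 e he hec) id G.τ_ge (fun h3 h4 => h3 (Or.inl h4)) ?_, hst⟩
      intro h3 t
      by_cases h4 : Γ.flip e ∈ V
      · exact (G.σ_le h4 t).trans (hlt t).le
      · rw [G.σ_eq h4 t]
        rcases h3 with h3 | ⟨d, hdD, h3⟩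
        · exact absurd h3 h4
        · rw [horb h3 t]
          exact hw d hdD t

end Mv

end Pool.Agent.Helper33.TG
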