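import Mathlib
import Pool.Agent.Helper31.T3.Final
import Pool.Agent.Helper33.TG.Ind

/-!
The first inequalities for a labelled graph with one negative edge.
-/

set_option autoImplicit false

namespace Pool.Agent.Helper33.TG

open Pool.Agent.Helper42.Th Pool.Agent.Helper31.T3 Pool.Agent.Helper31.CUT

section

variable {E : Type} {Ω : Type*} [LinearOrder Ω] {Γ : CMap E} {δ : E} {X Y : E → Ω ≃o Ω}
  {a b : Ω ≃o Ω} {k : ℕ} {z₀ : Ω} [Finite E] (S : Sys Γ δ X Y a b k) (h0 : z₀ < a z₀)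
include S h0

/-- The labels satisfy the rules. -/
lemma harmJ (t : {z // Reg a z₀ z}) :
    Harm Γ δ (fun d => hgt S h0 d t) (fun d => fac S h0 d t) := by
  have hX : ∀ d e, hgt S h0 d t = hgt S h0 e t ↔ X d t.1 = X e t.1 := fun d e => by
    rw [le_antisymm_iff, le_antisymm_iff, hgt_le, hgt_le]
  have hY : ∀ d e, fac S h0 d t = fac S h0 e t ↔ Y d t.1 = Y e t.1 := fun d e => by
    rw [le_antisymm_iff, le_antisymm_iff, fac_le, fac_le]
  have H := S.harm t.1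
  refine ⟨fun d => (hX _ _).mpr (H.f_rot d), fun d => (hY _ _).mpr (H.g_rot d), ?_, ?_⟩
  · intro d h1 h2 h3
    exact (fac_le S h0 _ _ _ _).mpr (H.pos d h1 h2 ((hgt_le S h0 _ _ _ _).mp h3))
  · intro d h1 h2 h3
    exact (hX _ _).mpr (H.str d h1 h2 ((hY _ _).mp h3))

lemma sqJ {e : E} (h : Slope Γ X Y e 1) : Sq Γ (hgt S h0) (fac S h0) e := by
  intro t s h1 h2
  rw [hgt_le] at h1 ⊢
  rw [fac_le] at h2
  refine (h t.1 h1).trans ((X (Γ.flip e)).monotone ?_)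
  rw [pow_one]
  exact Sys.N_le.mpr h2

lemma le_facJ (e : E) (t : {z // Reg a z₀ z}) : t ≤ fac S h0 e t := by
  have h1 := (S.ext (reg_lt h0 t.2).le e).2.2.1
  rw [← fac_eq S h0 e t, (Y δ).le_iff_le] at h1
  exact h1

lemma fac_leJ (e : E) (t : {z // Reg a z₀ z}) : fac S h0 e t ≤ bJ S h0 t := by
  have h1 := (S.ext (reg_lt h0 t.2).le e).2.2.2
  rw [← fac_eq S h0 e t, ← S.hb, (Y δ).le_iff_le] at h1
  exact h1

lemma bpow_leJ {m n : ℕ} (h : m ≤ n) (t : {z // Reg a z₀ z}) :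
    (bJ S h0 ^ m) t ≤ (bJ S h0 ^ n) t := by
  change ((bJ S h0 ^ m) t).1 ≤ ((bJ S h0 ^ n) t).1
  have key : ∀ n : ℕ, ((bJ S h0 ^ n) t).1 = (b ^ n) t.1 := by
    intro n
    induction n with
    | zero => rfl
    | succ n ih =>
      rw [pow_succ', pow_succ', RelIso.mul_apply, RelIso.mul_apply, ← ih]
      rfl
  rw [key, key]
  exact S.bpow_mono (reg_lt h0 t.2).le h

lemma hgt_top (t : {z // Reg a z₀ z}) : hgt S h0 δ t = aJ h0 t := by
  apply Subtype.ext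
  apply (X (Γ.flip δ)).injective
  rw [hgt_eq]
  exact (S.ha t.1).symm

lemma hgt_bot (t : {z // Reg a z₀ z}) : hgt S h0 (Γ.flip δ) t = t := by
  apply Subtype.ext
  apply (X (Γ.flip δ)).injective
  rw [hgt_eq]

lemma up_powJ (t : {z // Reg a z₀ z}) : (bJ S h0 ^ k) t ≤ aJ h0 t := by
  change ((bJ S h0 ^ k) t).1 ≤ a t.1
  have key : ∀ n : ℕ, ((bJ S h0 ^ n) t).1 = (b ^ n) t.1 := by
    intro n
    induction n with
    | zero => rfl
    | succ n ih =>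
      rw [pow_succ', pow_succ', RelIso.mul_apply, RelIso.mul_apply, ← ih]
      rfl
  rw [key]
  exact S.up _ (S.b_ge (reg_lt h0 t.2).le)

end

variable {E : Type} {G : Type*} [Group G] {Γ : CMap E} {L : Lab G Γ} {δ : E}
  {Ω : Type*} [CompleteLinearOrder Ω] {ρ : G →* (Ω ≃o Ω)} {a b : Ω ≃o Ω} {k : ℕ} {z₀ : Ω}
  [Finite E]

lemma walk_const (S : Sys Γ δ (lx L ρ) (ly L ρ) a b k) {d e : E} {n : ℕ}
    (h : L.Walk δ d e n) {z : Ω} (hz : z ≤ a z) (hb : b z = z) : lx L ρ d z = lx L ρ e z := by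
  have hY : ∀ d, ly L ρ d z = ly L ρ δ z := fun d => by
    have h1 := S.ext hz d
    have h2 := S.hb z
    rw [hb] at h2
    exact le_antisymm (h1.2.2.2.trans_eq h2.symm) h1.2.2.1
  induction h with
  | refl d => rfl
  | rot d e n _ ih => exact ((S.harm z).f_rot d).symm.trans ih
  | pass d e n ℓ h1 h2 _ _ ih =>
    exact ((S.harm z).str d h1 h2 ((hY _).trans (hY _).symm)).symm.trans ih

variable (S : Sys Γ δ (lx L ρ) (ly L ρ) a b k) (h0 : z₀ < a z₀)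
include S h0

/-- The element of the faces of the negative edge moves the points up. -/
lemma b_gt {H : Set E} (hH : δ ∉ H ∧ Γ.flip δ ∉ H) {k₁ k₂ : ℕ}
    (hcut : ∀ T : Set E, (∀ d, Γ.rot d ∈ T ↔ d ∈ T) → (∀ d ∈ Upper L δ k₁, d ∈ T) →
      (∀ d ∈ Lower L δ k₂, d ∉ T) → ∃ e ∈ H, Cut Γ T e)
    (t : {z // Reg a z₀ z}) : t < bJ S h0 t := by
  have hz := reg_lt h0 t.2
  have h1 : t ≤ bJ S h0 t := S.b_ge hz.le
  refine lt_of_le_of_ne h1 fun h2 => ?_
  have hb : b t.1 = t.1 := (congrArg Subtype.val h2).symm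
  have hY : ∀ d, ly L ρ d t.1 = ly L ρ δ t.1 := fun d => by
    have h3 := S.ext hz.le d
    have h4 := S.hb t.1
    rw [hb] at h4
    exact le_antisymm (h3.2.2.2.trans_eq h4.symm) h3.2.2.1
  obtain ⟨e, he, hc1, hc2⟩ := hcut {d | lx L ρ (Γ.flip δ) t.1 < lx L ρ d t.1} (fun d => by
    change _ < lx L ρ (Γ.rot d) t.1 ↔ _ < lx L ρ d t.1
    rw [show lx L ρ (Γ.rot d) t.1 = lx L ρ d t.1 from (S.harm t.1).f_rot d]) (by
      rintro d ⟨n, -, hw⟩
      change _ < lx L ρ d t.1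
      rw [← walk_const S hw hz.le hb]
      exact ends_lt S h0 t) (by
      rintro d ⟨n, -, hw⟩ hd
      change _ < lx L ρ d t.1 at hd
      rw [walk_const S hw hz.le hb] at hd
      exact lt_irrefl _ hd)
  have h3 := (S.harm t.1).str e (fun h => hH.1 (h ▸ he)) (fun h => hH.2 (h ▸ he))
    ((hY _).trans (hY _).symm)
  apply hc2
  change _ < lx L ρ (Γ.flip e) t.1
  rw [show lx L ρ (Γ.flip e) t.1 = lx L ρ e t.1 from h3]
  exact hc1

/-- The heights near the start of the negative edge. -/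
lemma upper_le {e : E} {n m : ℕ} (hw : L.Walk δ δ e n) (hk : n + m = k)
    (t : {z // Reg a z₀ z}) : (bJ S h0 ^ m) t ≤ hgt S h0 e t ∧
      ((∀ t, (bJ S h0 ^ k) t < aJ h0 t) → (bJ S h0 ^ m) t < hgt S h0 e t) := by
  obtain ⟨s, hs⟩ := (bJ S h0 ^ n).surjective t
  have h1 : aJ h0 s ≤ hgt S h0 e t := by
    rw [← hgt_top S h0 s, hgt_le]
    refine (walk_le L ρ S hw s.1 (reg_lt h0 s.2).le).trans_eq ?_
    rw [← bJ_pow S h0 n s, hs]
  have h2 : (bJ S h0 ^ m) t = (bJ S h0 ^ k) s := by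
    have h3 : (bJ S h0 ^ (m + n)) s = (bJ S h0 ^ m) t := by
      rw [pow_add, RelIso.mul_apply, hs]
    rw [← h3]
    congr 2
    omega
  rw [h2]
  exact ⟨(up_powJ S h0 s).trans h1, fun h3 => (h3 s).trans_le h1⟩

/-- The heights near the end of the negative edge. -/
lemma lower_le {e : E} {n : ℕ} (hw : L.Walk δ e (Γ.flip δ) n)
    (t : {z // Reg a z₀ z}) : hgt S h0 e t ≤ (bJ S h0 ^ n) t := by
  have h1 := walk_le L ρ S hw t.1 (reg_lt h0 t.2).le
  rw [← bJ_pow S h0 n t, ← hgt_le S h0, hgt_bot] at h1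
  exact h1

/-- The first stage. -/
theorem stage_zero {H Z : Set E} (hH : δ ∉ H ∧ Γ.flip δ ∉ H) {k₁ k₂ : ℕ} (hk : k = k₁ + k₂ + 1)
    (hb : ∀ t, t < bJ S h0 t) (hZ : (∀ e, e ∈ Z) ∨ ∀ t, (bJ S h0 ^ k) t < aJ h0 t) :
    Stage Γ δ (hgt S h0) (fac S h0) (Upper L δ k₁) (Lower L δ k₂) H (bJ S h0 ^ (k₂ + 1))
      (bJ S h0 ^ k₂) 1 (bJ S h0) Z := by
  have hU : ∀ e ∈ Upper L δ k₁, ∀ t, (bJ S h0 ^ (k₂ + 1)) t ≤ hgt S h0 e t ∧
      ((∀ t, (bJ S h0 ^ k) t < aJ h0 t) → (bJ S h0 ^ (k₂ + 1)) t < hgt S h0 e t) := by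
    rintro e ⟨n, hn, hw⟩ t
    obtain ⟨m, hm⟩ : ∃ m, n + m = k := ⟨k - n, by omega⟩
    have h1 := upper_le S h0 hw hm t
    have h2 := bpow_leJ S h0 (show k₂ + 1 ≤ m by omega) t
    exact ⟨h2.trans h1.1, fun h3 => h2.trans_lt (h1.2 h3)⟩
  have hV : ∀ e ∈ Lower L δ k₂, ∀ t, hgt S h0 e t ≤ (bJ S h0 ^ k₂) t := by
    rintro e ⟨n, hn, hw⟩ t
    exact (lower_le S h0 hw t).trans (bpow_leJ S h0 hn t)
  have ne : ∀ e ∈ H, e ≠ δ ∧ e ≠ Γ.flip δ := fun e he =>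
    ⟨fun h => hH.1 (h ▸ he), fun h => hH.2 (h ▸ he)⟩
  have hlt : ∀ e ∈ H, ∀ t, hgt S h0 (Γ.flip e) t < hgt S h0 e t →
      fac S h0 (Γ.flip e) t < fac S h0 e t := by
    intro e he t hd
    have h1 := (harmJ S h0 t).pos e (ne e he).1 (ne e he).2 hd.le
    refine lt_of_le_of_ne h1 fun h2 => hd.ne ?_
    exact (harmJ S h0 t).str e (ne e he).1 (ne e he).2 h2
  refine ⟨harmJ S h0, ⟨0, Nat.zero_le _, Lab.Walk.refl _⟩, ⟨0, Nat.zero_le _, Lab.Walk.refl _⟩,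
    ne, ?_, ?_, fun e he t => (hU e he t).1, hV, ?_, ?_⟩
  · intro t
    rw [pow_succ, RelIso.mul_apply]
    exact (bJ S h0 ^ k₂).strictMono (hb t)
  · intro t s hs
    rw [pow_succ, RelIso.mul_apply] at hs
    exact (bJ S h0 ^ k₂).injective hs
  · intro e he t ht
    exact ⟨(le_facJ S h0 _ t).trans_lt (hlt e he t ht.1),
      (hlt e he t ht.1).trans_le (fac_leJ S h0 _ t)⟩
  · intro e he sq
    have w1 : ∀ t s, hgt S h0 (Γ.flip e) s < hgt S h0 e s →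
        hgt S h0 (Γ.flip e) s ≤ hgt S h0 e t → s ≤ fac S h0 e t := by
      intro t s hs h1
      by_contra hn
      push Not at hn
      rcases le_total (hgt S h0 (Γ.flip e) t) (hgt S h0 e t) with h2 | h2
      · have h3 := sq t (fac S h0 e t) h2 (le_facJ S h0 _ _)
        exact absurd (h3.trans_lt ((hgt S h0 (Γ.flip e)).strictMono hn)) (not_lt.mpr h1)
      · have h3 : s ≤ t := (hgt S h0 (Γ.flip e)).le_iff_le.mp (h1.trans h2)
        exact absurd (h3.trans (le_facJ S h0 e t)) (not_le.mpr hn)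
    have w2 : ∀ t s, hgt S h0 (Γ.flip e) t < hgt S h0 e t →
        hgt S h0 (Γ.flip e) s ≤ hgt S h0 e t → fac S h0 (Γ.flip e) s ≤ fac S h0 e t := by
      intro t s ht h1
      by_contra hn
      push Not at hn
      obtain ⟨s', hs'⟩ := (fac S h0 (Γ.flip e)).surjective (fac S h0 e t)
      have h2 : s' < s := by
        rw [← (fac S h0 (Γ.flip e)).lt_iff_lt, hs']
        exact hn
      have h3 := sq t s' ht.le hs'.ge
      exact absurd (h3.trans_lt ((hgt S h0 (Γ.flip e)).strictMono h2)) (not_lt.mpr h1)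
    refine ⟨hgt S h0 e, hgt S h0 (Γ.flip e), ⟨fun t => le_rfl, fun t => le_rfl,
      fun _ t => rfl, fun h1 t => (hU e h1 t).1, fun _ t => rfl, fun h1 t => hV _ h1 t, ?_, ?_, ?_⟩,
      ?_⟩
    · intro t s hs h1
      exact w1 t s hs.1 h1
    · intro t s ht h1
      exact (w2 t s ht.1 h1).trans (fac_leJ S h0 _ _)
    · intro t s _ hs h1
      exact (w1 t s hs.1 h1).trans (fac_leJ S h0 _ _)
    · intro h1 h2 t
      rcases hZ with hZ | hZ
      · exact absurd (hZ e) h1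
      · exact (hU e h2 t).2 hZ

end Pool.Agent.Helper33.TG
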